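import Pool.Agent.W734.TWB.Stms

/-!
# Symmetric three-body trial functions
-/

set_option autoImplicit false

noncomputable section

namespace Pool.Agent.W999.TWB

open MeasureTheory Set Filter Metric
open Pool.Agent.W734.TWB

/-- energy density -/
def Jd (V : E3 × E3 → ℝ) (h : E3 × E3 → ℝ) (p : E3 × E3) : ℝ := g6r h p + V p * h p ^ 2

theorem V_int {V : E3 × E3 → ℝ} (hV : AdmV V) : Integrable V := by
  obtain ⟨M, hM⟩ := hV.bdd
  have h1 : IntegrableOn V (tsupport V) := by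
    refine Measure.integrableOn_of_bounded (M := M) ?_ hV.meas.aestronglyMeasurable ?_
    · exact (IsCompact.measure_lt_top hV.supp).ne
    · refine Eventually.of_forall fun p => ?_
      rw [Real.norm_of_nonneg (hV.nonneg p)]
      exact hM p
  exact (integrableOn_iff_integrable_of_support_subset (subset_tsupport V)).1 h1

theorem g6r_cont {h : E3 × E3 → ℝ} (hh : ContDiff ℝ ((⊤ : ℕ∞) : WithTop ℕ∞) h) :
    Continuous (g6r h) := by
  have h1 : Continuous (fderiv ℝ h) := hh.continuous_fderiv (by simp)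
  unfold g6r
  fun_prop

theorem g6r_nonneg (h : E3 × E3 → ℝ) (p : E3 × E3) : 0 ≤ g6r h p := by
  unfold g6r
  positivity

theorem g6r_supp {h : E3 × E3 → ℝ} {R : ℝ} (h1 : ∀ p, R ≤ ‖p‖ → h p = 1) :
    HasCompactSupport (g6r h) := by
  refine HasCompactSupport.intro (isCompact_closedBall (0 : E3 × E3) R) fun p hp => ?_
  rw [mem_closedBall_zero_iff, not_le] at hp
  have h2 : fderiv ℝ h p = 0 := by
    have h3 : h =ᶠ[nhds p] fun _ => (1 : ℝ) := by
      have h4 : {q : E3 × E3 | R < ‖q‖} ∈ nhds p :=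
        (isOpen_lt continuous_const continuous_norm).mem_nhds hp
      filter_upwards [h4] with q hq
      exact h1 q (le_of_lt hq)
    rw [h3.fderiv_eq]
    exact fderiv_const_apply (1 : ℝ)
  unfold g6r
  rw [h2]
  simp

/-- smooth functions with values in `[0, 1]`, equal to one far away, of energy `c` -/
structure Good (V : E3 × E3 → ℝ) (c : ℝ) (h : E3 × E3 → ℝ) : Prop where
  diff : ContDiff ℝ ((⊤ : ℕ∞) : WithTop ℕ∞) h
  nonneg : ∀ p, 0 ≤ h p
  le_one : ∀ p, h p ≤ 1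
  one : ∃ R : ℝ, ∀ p, R ≤ ‖p‖ → h p = 1
  en : ∫ p, Jd V h p = c

theorem Jd_int {V : E3 × E3 → ℝ} (hV : AdmV V) {h : E3 × E3 → ℝ}
    (hd : ContDiff ℝ ((⊤ : ℕ∞) : WithTop ℕ∞) h) (h0 : ∀ p, 0 ≤ h p) (h1 : ∀ p, h p ≤ 1)
    (ho : ∃ R : ℝ, ∀ p, R ≤ ‖p‖ → h p = 1) : Integrable (Jd V h) := by
  obtain ⟨R, hR⟩ := ho
  refine Integrable.add ((g6r_cont hd).integrable_of_hasCompactSupport (g6r_supp hR)) ?_
  refine (V_int hV).mono ?_ (Eventually.of_forall fun p => ?_)
  · exact (hV.meas.mul (hd.continuous.measurable.pow_const 2)).aestronglyMeasurable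
  · rw [norm_mul, norm_pow, Real.norm_of_nonneg (h0 p)]
    exact mul_le_of_le_one_right (norm_nonneg _) (pow_le_one₀ (h0 p) (h1 p))

theorem Good.int {V : E3 × E3 → ℝ} (hV : AdmV V) {c : ℝ} {h : E3 × E3 → ℝ} (hh : Good V c h) :
    Integrable (Jd V h) := Jd_int hV hh.diff hh.nonneg hh.le_one hh.one

/-! ### the two linear maps -/

/-- exchange -/
def LA : E3 × E3 →L[ℝ] E3 × E3 :=
  (ContinuousLinearMap.snd ℝ E3 E3).prod (ContinuousLinearMap.fst ℝ E3 E3)

/-- `(a, b) ↦ (-a, b - a)` -/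
def LB : E3 × E3 →L[ℝ] E3 × E3 :=
  (-(ContinuousLinearMap.fst ℝ E3 E3)).prod
    (ContinuousLinearMap.snd ℝ E3 E3 - ContinuousLinearMap.fst ℝ E3 E3)

@[simp] theorem LA_apply (a b : E3) : LA (a, b) = (b, a) := rfl
@[simp] theorem LB_apply (a b : E3) : LB (a, b) = (-a, b - a) := rfl

theorem LA_LA (p : E3 × E3) : LA (LA p) = p := rfl

theorem LB_LB (p : E3 × E3) : LB (LB p) = p := by
  obtain ⟨a, b⟩ := p
  simp

theorem mp_LA : MeasurePreserving (fun p : E3 × E3 => LA p) volume volume :=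
  Measure.measurePreserving_swap (μ := (volume : Measure E3)) (ν := (volume : Measure E3))

theorem mp_LB : MeasurePreserving (fun p : E3 × E3 => LB p) volume volume := by
  have h1 : MeasurePreserving (fun z : E3 × E3 => (z.1, -z.1 + z.2)) volume volume :=
    measurePreserving_prod_neg_add (volume : Measure E3) (volume : Measure E3)
  have h2 : MeasurePreserving (fun z : E3 × E3 => (-z.1, z.2)) volume volume :=
    (Measure.measurePreserving_neg (volume : Measure E3)).prod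
      (MeasurePreserving.id (volume : Measure E3))
  have h3 := h2.comp h1
  have h4 : (fun p : E3 × E3 => LB p) =
      (fun z : E3 × E3 => (-z.1, z.2)) ∘ (fun z : E3 × E3 => (z.1, -z.1 + z.2)) := by
    funext p
    obtain ⟨a, b⟩ := p
    simp [sub_eq_neg_add]
  rw [h4]
  exact h3

theorem fderiv_lin {h : E3 × E3 → ℝ} (hd : Differentiable ℝ h) (L : E3 × E3 →L[ℝ] E3 × E3)
    (p v : E3 × E3) : fderiv ℝ (fun q => h (L q)) p v = fderiv ℝ h (L p) (L v) := by
  have h1 : HasFDerivAt (fun q => h (L q)) ((fderiv ℝ h (L p)).comp L) p :=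
    (hd (L p)).hasFDerivAt.comp p L.hasFDerivAt
  rw [h1.fderiv]
  rfl

theorem g6r_LA {h : E3 × E3 → ℝ} (hd : Differentiable ℝ h) (p : E3 × E3) :
    g6r (fun q => h (LA q)) p = g6r h (LA p) := by
  unfold g6r
  refine Finset.sum_congr rfl fun k _ => ?_
  have e1 : LA ((EuclideanSpace.single k (1 : ℝ), 0) : E3 × E3) =
      (0, EuclideanSpace.single k (1 : ℝ)) := rfl
  have e2 : LA ((0, EuclideanSpace.single k (1 : ℝ)) : E3 × E3) =
      (EuclideanSpace.single k (1 : ℝ), 0) := rfl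
  have e3 : LA ((EuclideanSpace.single k (1 : ℝ), EuclideanSpace.single k (1 : ℝ)) : E3 × E3) =
      (EuclideanSpace.single k (1 : ℝ), EuclideanSpace.single k (1 : ℝ)) := rfl
  rw [fderiv_lin hd, fderiv_lin hd, fderiv_lin hd, e1, e2, e3]
  ring

theorem g6r_LB {h : E3 × E3 → ℝ} (hd : Differentiable ℝ h) (p : E3 × E3) :
    g6r (fun q => h (LB q)) p = g6r h (LB p) := by
  unfold g6r
  refine Finset.sum_congr rfl fun k _ => ?_
  have e1 : LB ((EuclideanSpace.single k (1 : ℝ), 0) : E3 × E3) =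
      -(EuclideanSpace.single k (1 : ℝ), EuclideanSpace.single k (1 : ℝ)) := by
    rw [LB_apply]; simp
  have e2 : LB ((0, EuclideanSpace.single k (1 : ℝ)) : E3 × E3) =
      (0, EuclideanSpace.single k (1 : ℝ)) := by
    rw [LB_apply]; simp
  have e3 : LB ((EuclideanSpace.single k (1 : ℝ), EuclideanSpace.single k (1 : ℝ)) : E3 × E3) =
      -(EuclideanSpace.single k (1 : ℝ), 0) := by
    rw [LB_apply]; simp
  rw [fderiv_lin hd, fderiv_lin hd, fderiv_lin hd, e1, e2, e3, map_neg, map_neg]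
  ring

theorem good_comp {V : E3 × E3 → ℝ} {c : ℝ} {h : E3 × E3 → ℝ} (hh : Good V c h)
    (L : E3 × E3 →L[ℝ] E3 × E3) (hL : ∀ p, L (L p) = p)
    (hm : MeasurePreserving (fun p : E3 × E3 => L p) volume volume)
    (hg : ∀ p, g6r (fun q => h (L q)) p = g6r h (L p)) (hVL : ∀ p, V (L p) = V p) :
    Good V c (fun q => h (L q)) where
  diff := hh.diff.comp L.contDiff
  nonneg p := hh.nonneg _
  le_one p := hh.le_one _
  one := by
    obtain ⟨R, hR⟩ := hh.one
    refine ⟨‖L‖ * max R 0 + 1, fun p hp => ?_⟩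
    by_cases hRp : R ≤ ‖L p‖
    · exact hR _ hRp
    · exfalso
      push Not at hRp
      have h1 : ‖p‖ ≤ ‖L‖ * ‖L p‖ := by
        have := L.le_opNorm (L p)
        rwa [hL] at this
      have h3 : ‖L p‖ ≤ max R 0 := hRp.le.trans (le_max_left _ _)
      have h4 := mul_le_mul_of_nonneg_left h3 (norm_nonneg L)
      linarith
  en := by
    rw [← hh.en]
    have hemb : MeasurableEmbedding (fun p : E3 × E3 => L p) :=
      L.continuous.measurableEmbedding (Function.LeftInverse.injective hL)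
    rw [← hm.integral_comp hemb (Jd V h)]
    refine integral_congr_ae (Eventually.of_forall fun p => ?_)
    change g6r (fun q => h (L q)) p + V p * h (L p) ^ 2 = g6r h (L p) + V (L p) * h (L p) ^ 2
    rw [hg, hVL]

theorem V_LA {V : E3 × E3 → ℝ} (hV : AdmV V) (p : E3 × E3) : V (LA p) = V p := by
  obtain ⟨a, b⟩ := p
  exact hV.symm b a

theorem V_LB {V : E3 × E3 → ℝ} (hV : AdmV V) (p : E3 × E3) : V (LB p) = V p := by
  obtain ⟨a, b⟩ := p
  have h1 := (hV.symm3 0 (-a) (-b)).1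
  have e1 : (0 : E3) - -a = a := by simp
  have e2 : (0 : E3) - -b = b := by simp
  have e3 : -a - (0 : E3) = -a := by simp
  have e4 : -a - -b = b - a := by abel
  rw [e1, e2, e3, e4] at h1
  rw [LB_apply]
  exact h1.symm

theorem good_LA {V : E3 × E3 → ℝ} (hV : AdmV V) {c : ℝ} {h : E3 × E3 → ℝ} (hh : Good V c h) :
    Good V c (fun q => h (LA q)) :=
  good_comp hh LA LA_LA mp_LA (g6r_LA (hh.diff.differentiable (by simp))) (V_LA hV)

theorem good_LB {V : E3 × E3 → ℝ} (hV : AdmV V) {c : ℝ} {h : E3 × E3 → ℝ} (hh : Good V c h) :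
    Good V c (fun q => h (LB q)) :=
  good_comp hh LB LB_LB mp_LB (g6r_LB (hh.diff.differentiable (by simp))) (V_LB hV)

/-! ### averages -/

theorem sq_avg (a : Fin 6 → ℝ) : ((1 / 6 : ℝ) * ∑ i, a i) ^ 2 ≤ (1 / 6 : ℝ) * ∑ i, a i ^ 2 := by
  have h1 := sq_sum_le_card_mul_sum_sq (s := (Finset.univ : Finset (Fin 6))) (f := a)
  simp only [Finset.card_univ, Fintype.card_fin, Nat.cast_ofNat] at h1
  nlinarith

theorem Jd_avg {V : E3 × E3 → ℝ} (hV : ∀ p, 0 ≤ V p) (h : Fin 6 → E3 × E3 → ℝ)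
    (hd : ∀ i, Differentiable ℝ (h i)) (p : E3 × E3) :
    Jd V (fun q => (1 / 6 : ℝ) * ∑ i, h i q) p ≤ (1 / 6 : ℝ) * ∑ i, Jd V (h i) p := by
  have h1 : ∀ v, fderiv ℝ (fun q => (1 / 6 : ℝ) * ∑ i, h i q) p v =
      (1 / 6 : ℝ) * ∑ i, fderiv ℝ (h i) p v := by
    intro v
    have h2 : HasFDerivAt (fun q => (1 / 6 : ℝ) * ∑ i, h i q)
        ((1 / 6 : ℝ) • ∑ i, fderiv ℝ (h i) p) p := by
      refine HasFDerivAt.const_mul ?_ (1 / 6 : ℝ)
      exact HasFDerivAt.fun_sum fun i _ => (hd i p).hasFDerivAt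
    rw [h2.fderiv]
    simp
  have h2 : g6r (fun q => (1 / 6 : ℝ) * ∑ i, h i q) p ≤ (1 / 6 : ℝ) * ∑ i, g6r (h i) p := by
    unfold g6r
    rw [Finset.sum_comm, Finset.mul_sum]
    refine Finset.sum_le_sum fun k _ => ?_
    rw [h1, h1, h1, Finset.sum_add_distrib, Finset.sum_add_distrib]
    have e1 := sq_avg fun i => fderiv ℝ (h i) p (EuclideanSpace.single k (1 : ℝ), 0)
    have e2 := sq_avg fun i => fderiv ℝ (h i) p (0, EuclideanSpace.single k (1 : ℝ))
    have e3 := sq_avg fun i => fderiv ℝ (h i) p (EuclideanSpace.single k (1 : ℝ),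
      EuclideanSpace.single k (1 : ℝ))
    linarith
  have h3 := mul_le_mul_of_nonneg_left (sq_avg fun i => h i p) (hV p)
  unfold Jd
  rw [Finset.sum_add_distrib, ← Finset.mul_sum]
  nlinarith

theorem good_avg {V : E3 × E3 → ℝ} (hV : AdmV V) {c : ℝ} (h : Fin 6 → E3 × E3 → ℝ)
    (hg : ∀ i, Good V c (h i)) :
    ∃ c' ≤ c, Good V c' (fun q => (1 / 6 : ℝ) * ∑ i, h i q) := by
  refine ⟨∫ p, Jd V (fun q => (1 / 6 : ℝ) * ∑ i, h i q) p, ?_, ?_, ?_, ?_, ?_, rfl⟩
  · have h1 : ∫ p, (1 / 6 : ℝ) * ∑ i, Jd V (h i) p = c := by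
      rw [integral_const_mul, integral_finsetSum _ fun i _ => (hg i).int hV]
      simp only [(hg _).en]
      simp
    rw [← h1]
    refine integral_mono_of_nonneg (Eventually.of_forall fun p => ?_) ?_
      (Eventually.of_forall fun p => Jd_avg hV.nonneg h
        (fun i => (hg i).diff.differentiable (by simp)) p)
    · exact add_nonneg (g6r_nonneg _ _) (mul_nonneg (hV.nonneg p) (sq_nonneg _))
    · exact (integrable_finsetSum _ fun i _ => (hg i).int hV).const_mul _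
  · exact contDiff_const.mul (ContDiff.sum fun i _ => (hg i).diff)
  · intro p
    exact mul_nonneg (by norm_num) (Finset.sum_nonneg fun i _ => (hg i).nonneg p)
  · intro p
    have h1 : ∑ i, h i p ≤ ∑ _i : Fin 6, (1 : ℝ) := Finset.sum_le_sum fun i _ => (hg i).le_one p
    simp only [Finset.sum_const, Finset.card_univ, Fintype.card_fin, nsmul_eq_mul, mul_one,
      Nat.cast_ofNat] at h1
    linarith
  · choose R hR using fun i => (hg i).one
    refine ⟨∑ i, |R i|, fun p hp => ?_⟩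
    have h1 : ∀ i, h i p = 1 := fun i => hR i p ((le_abs_self _).trans
      ((Finset.single_le_sum (f := fun i => |R i|) (fun j _ => abs_nonneg _)
        (Finset.mem_univ i)).trans hp))
    simp [h1]

/-! ### the trial function -/

theorem g6_cont {φ : E3 × E3 → ℂ} (hφ : ContDiff ℝ ((⊤ : ℕ∞) : WithTop ℕ∞) φ) :
    Continuous (g6 φ) := by
  have h1 : Continuous (fderiv ℝ φ) := hφ.continuous_fderiv (by simp)
  unfold g6
  fun_prop

theorem g6_nonneg (φ : E3 × E3 → ℂ) (p : E3 × E3) : 0 ≤ g6 φ p := by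
  unfold g6
  positivity

theorem g6_supp {φ : E3 × E3 → ℂ} (hs : HasCompactSupport φ) : HasCompactSupport (g6 φ) := by
  refine (hs.fderiv ℝ).mono' ?_
  intro p hp
  by_contra h1
  have h2 : fderiv ℝ φ p = 0 := image_eq_zero_of_notMem_tsupport h1
  refine hp ?_
  unfold g6
  rw [h2]
  simp

theorem B_int {V : E3 × E3 → ℝ} (hV : AdmV V) {φ : E3 × E3 → ℂ}
    (hφ : ContDiff ℝ ((⊤ : ℕ∞) : WithTop ℕ∞) φ) (hs : HasCompactSupport φ) :
    Integrable (fun p => g6 φ p + V p * ‖1 - φ p‖ ^ 2) := by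
  refine ((g6_cont hφ).integrable_of_hasCompactSupport (g6_supp hs)).add ?_
  obtain ⟨C, hC⟩ := hs.exists_bound_of_continuous hφ.continuous
  have hC0 : 0 ≤ C := (norm_nonneg _).trans (hC 0)
  have h1 : Integrable (fun p => V p * (1 + C) ^ 2) := (V_int hV).mul_const _
  refine h1.mono ?_ (Eventually.of_forall fun p => ?_)
  · exact (hV.meas.mul ((by fun_prop : Continuous fun p => ‖1 - φ p‖ ^ 2).measurable)).aestronglyMeasurable
  · have h2 : ‖1 - φ p‖ ≤ 1 + C := by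
      refine (norm_sub_le _ _).trans ?_
      rw [norm_one]
      linarith [hC p]
    rw [norm_mul, norm_mul, Real.norm_of_nonneg (hV.nonneg p),
      Real.norm_of_nonneg (sq_nonneg ‖1 - φ p‖), Real.norm_of_nonneg (sq_nonneg (1 + C))]
    exact mul_le_mul_of_nonneg_left (pow_le_pow_left₀ (norm_nonneg _) h2 2) (hV.nonneg p)

theorem sq_re_le (z : ℂ) : z.re ^ 2 ≤ ‖z‖ ^ 2 := by
  have := Complex.abs_re_le_norm z
  rw [← sq_abs z.re]
  exact pow_le_pow_left₀ (abs_nonneg _) this 2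

/-- the energy of a truncated function -/
theorem trunc {φ : E3 × E3 → ℂ} (hφ : ContDiff ℝ ((⊤ : ℕ∞) : WithTop ℕ∞) φ) {T : ℝ → ℝ}
    (hT : ContDiff ℝ ((⊤ : ℕ∞) : WithTop ℕ∞) T) {ε : ℝ} (hε : 0 ≤ ε)
    (hT1 : ∀ s, |deriv T s| ≤ 1 + ε) (hT2 : ∀ s, T s ^ 2 ≤ s ^ 2 + ε) {V : E3 × E3 → ℝ}
    (hV : ∀ p, 0 ≤ V p) (p : E3 × E3) :
    Jd V (fun q => T (1 - (φ q).re)) p ≤
      (1 + ε) ^ 2 * (g6 φ p + V p * ‖1 - φ p‖ ^ 2) + ε * V p := by
  have hfd : ∀ v, (fderiv ℝ (fun q => T (1 - (φ q).re)) p v) ^ 2 ≤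
      (1 + ε) ^ 2 * ‖fderiv ℝ φ p v‖ ^ 2 := by
    intro v
    have h1 : HasFDerivAt φ (fderiv ℝ φ p) p :=
      ((hφ.differentiable (by simp)) p).hasFDerivAt
    have h2 : HasFDerivAt (fun q => 1 - (φ q).re) (-(Complex.reCLM.comp (fderiv ℝ φ p))) p :=
      (Complex.reCLM.hasFDerivAt.comp p h1).const_sub 1
    have h3 : HasDerivAt T (deriv T (1 - (φ p).re)) (1 - (φ p).re) :=
      ((hT.differentiable (by simp)) _).hasDerivAt
    have h4 := h3.comp_hasFDerivAt p h2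
    have h5 : fderiv ℝ (fun q => T (1 - (φ q).re)) p v =
        deriv T (1 - (φ p).re) * (-(fderiv ℝ φ p v).re) := by
      have h6 : fderiv ℝ (fun q => T (1 - (φ q).re)) p = deriv T (1 - (φ p).re) •
          -(Complex.reCLM.comp (fderiv ℝ φ p)) := h4.fderiv
      rw [h6]
      simp
    rw [h5, mul_pow, neg_sq]
    refine mul_le_mul ?_ (sq_re_le _) (sq_nonneg _) (sq_nonneg _)
    rw [← sq_abs (deriv T _)]
    exact pow_le_pow_left₀ (abs_nonneg _) (hT1 _) 2
  have h1 : g6r (fun q => T (1 - (φ q).re)) p ≤ (1 + ε) ^ 2 * g6 φ p := by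
    unfold g6r g6
    rw [Finset.mul_sum]
    refine Finset.sum_le_sum fun k _ => ?_
    have e1 := hfd (EuclideanSpace.single k (1 : ℝ), 0)
    have e2 := hfd (0, EuclideanSpace.single k (1 : ℝ))
    have e3 := hfd (EuclideanSpace.single k (1 : ℝ), EuclideanSpace.single k (1 : ℝ))
    linarith
  have h2 : T (1 - (φ p).re) ^ 2 ≤ (1 + ε) ^ 2 * ‖1 - φ p‖ ^ 2 + ε := by
    have h3 := hT2 (1 - (φ p).re)
    have h4 := sq_re_le (1 - φ p)
    rw [Complex.sub_re, Complex.one_re] at h4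
    have h5 : ‖1 - φ p‖ ^ 2 ≤ (1 + ε) ^ 2 * ‖1 - φ p‖ ^ 2 := by
      have : (1 : ℝ) ≤ (1 + ε) ^ 2 := one_le_pow₀ (by linarith)
      nlinarith [sq_nonneg ‖1 - φ p‖]
    linarith
  have h3 := mul_le_mul_of_nonneg_left h2 (hV p)
  change g6r (fun q => T (1 - (φ q).re)) p + V p * T (1 - (φ p).re) ^ 2 ≤ _
  linarith

/-- the symmetric function -/
def symF (f : E3 × E3 → ℝ) : Fin 6 → E3 × E3 → ℝ :=
  ![f, fun q => f (LA q), fun q => f (LB q), fun q => f (LA (LB q)), fun q => f (LB (LA q)),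
    fun q => f (LA (LB (LA q)))]

theorem tr2 : S_CLAMP → S_TR2 := by
  intro hcl V hV δ hδ
  -- an almost minimiser
  have hne : {B : ℝ | ∃ φ : E3 × E3 → ℂ, ContDiff ℝ ((⊤ : ℕ∞) : WithTop ℕ∞) φ ∧
      HasCompactSupport φ ∧ B = ∫ p, (g6 φ p + V p * ‖1 - φ p‖ ^ 2)}.Nonempty :=
    ⟨_, fun _ => 0, contDiff_const, HasCompactSupport.zero, rfl⟩
  obtain ⟨B, ⟨φ, hφ, hs, rfl⟩, hB⟩ := exists_lt_of_csInf_lt hne
    (show sInf _ < b2 V + δ / 4 by unfold b2; linarith)
  set B := ∫ p, (g6 φ p + V p * ‖1 - φ p‖ ^ 2) with hBdef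
  have hB0 : 0 ≤ B := integral_nonneg fun p =>
    add_nonneg (g6_nonneg _ _) (mul_nonneg (hV.nonneg p) (sq_nonneg _))
  set I := ∫ p, V p with hI
  have hI0 : 0 ≤ I := integral_nonneg hV.nonneg
  -- the truncation
  have hden : 0 < 4 * (B + I + 1) := by positivity
  obtain ⟨T, hT, hT01, hT1, hT2, hT3⟩ := hcl (min 1 (δ / (4 * (B + I + 1))))
    (lt_min one_pos (div_pos hδ hden))
  set ε := min 1 (δ / (4 * (B + I + 1))) with hε
  have hε0 : 0 ≤ ε := le_min zero_le_one (div_nonneg hδ.le hden.le)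
  have hε1 : ε ≤ 1 := min_le_left _ _
  have hε2 : ε * (B + I + 1) ≤ δ / 4 := by
    have h1 : ε ≤ δ / (4 * (B + I + 1)) := min_le_right _ _
    rw [le_div_iff₀ hden] at h1
    linarith
  set f1 : E3 × E3 → ℝ := fun q => T (1 - (φ q).re) with hf1
  have hf1d : ContDiff ℝ ((⊤ : ℕ∞) : WithTop ℕ∞) f1 :=
    hT.comp (contDiff_const.sub (Complex.reCLM.contDiff.comp hφ))
  have hf1o : ∃ R : ℝ, ∀ p, R ≤ ‖p‖ → f1 p = 1 := by
    obtain ⟨R, hR⟩ := hs.isCompact.isBounded.subset_closedBall (0 : E3 × E3)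
    refine ⟨R + 1, fun p hp => ?_⟩
    have h1 : p ∉ tsupport φ := by
      intro h2
      have := mem_closedBall_zero_iff.1 (hR h2)
      linarith
    have h2 : φ p = 0 := image_eq_zero_of_notMem_tsupport h1
    change T (1 - (φ p).re) = 1
    rw [h2, Complex.zero_re, sub_zero]
    exact hT3 1 le_rfl
  have hJ : ∫ p, Jd V f1 p ≤ b2 V + δ := by
    have h1 : ∫ p, Jd V f1 p ≤
        ∫ p, ((1 + ε) ^ 2 * (g6 φ p + V p * ‖1 - φ p‖ ^ 2) + ε * V p) := by
      refine integral_mono (Jd_int hV hf1d (fun p => (hT01 _).1) (fun p => (hT01 _).2) hf1o)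
        (((B_int hV hφ hs).const_mul _).add ((V_int hV).const_mul _)) fun p => ?_
      exact trunc hφ hT hε0 hT1 hT2 hV.nonneg p
    rw [integral_add ((B_int hV hφ hs).const_mul _) ((V_int hV).const_mul _),
      integral_const_mul, integral_const_mul, ← hBdef, ← hI] at h1
    have h2 : (1 + ε) ^ 2 * B + ε * I ≤ B + 3 * (ε * (B + I + 1)) := by
      nlinarith [mul_nonneg hε0 hB0, mul_nonneg hε0 hI0, mul_nonneg (mul_nonneg hε0 hB0)
        (sub_nonneg.2 hε1)]
    linarith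
  have hg1 : Good V (∫ p, Jd V f1 p) f1 :=
    ⟨hf1d, fun p => (hT01 _).1, fun p => (hT01 _).2, hf1o, rfl⟩
  have hA := good_LA hV hg1
  have hB' := good_LB hV hg1
  have hAB := good_LB hV hA
  have hBA := good_LA hV hB'
  have hABA := good_LA hV hAB
  obtain ⟨c', hc', hgood⟩ := good_avg hV (symF f1) (by
    intro i
    fin_cases i
    · exact hg1
    · exact hA
    · exact hB'
    · exact hAB
    · exact hBA
    · exact hABA)
  set f : E3 × E3 → ℝ := fun q => (1 / 6 : ℝ) * ∑ i, symF f1 i q with hf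
  have hfe : ∀ a b : E3, f (a, b) = (1 / 6 : ℝ) * (f1 (a, b) + f1 (b, a) + f1 (-a, b - a) +
      f1 (b - a, -a) + f1 (-b, a - b) + f1 (a - b, -b)) := by
    intro a b
    rw [hf]
    simp [symF, Fin.sum_univ_six]
  obtain ⟨R, hR⟩ := hgood.one
  refine ⟨max R 1, f, lt_max_of_lt_right one_pos, ⟨hgood.diff, hgood.nonneg, hgood.le_one, ?_, ?_,
    fun p hp => hR p ((le_max_left _ _).trans hp)⟩, ?_⟩
  · intro x y
    rw [hfe, hfe]
    ring
  · intro x y z
    rw [hfe, hfe]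
    have e1 : -(x - y) = y - x := by abel
    have e2 : -(x - z) = z - x := by abel
    have e3 : -(y - x) = x - y := by abel
    have e4 : -(y - z) = z - y := by abel
    have e5 : x - z - (x - y) = y - z := by abel
    have e6 : x - y - (x - z) = z - y := by abel
    have e7 : y - z - (y - x) = x - z := by abel
    have e8 : y - x - (y - z) = z - x := by abel
    rw [e1, e2, e3, e4, e5, e6, e7, e8]
    ring
  · have h1 : ∫ p, (g6r f p + V p * f p ^ 2) = c' := hgood.en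
    rw [h1]
    linarith

end Pool.Agent.W999.TWB
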